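import Pool.Agent.N662.FP.Stm3

/-!
# FN/CUT (helper189): cutting a path at half its passage time
-/

set_option autoImplicit false

namespace Pool.Agent.N189.FN

open Pool.Agent.N662.FP

lemma em_sub (x y z : ℤ × ℤ) : Pool.Agent.N662.FP.em (y - x) =
    Pool.Agent.N662.FP.em (z - x) + Pool.Agent.N662.FP.em (y - z) := by
  unfold N662.FP.em
  ext <;> simp

lemma tm_add (w : Sym2 (ℤ × ℤ) → ℝ) (k m : ℕ) (p : ℕ → ℤ × ℤ) :
    Tm w (k + m) p = Tm w k p + Tm w m (fun i => p (k + i)) := by
  unfold Tm
  rw [Finset.sum_range_add]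
  rfl

lemma step (μ : Seminorm ℝ (ℝ × ℝ)) (w : Sym2 (ℤ × ℤ) → ℝ) (hw : ∀ e, 0 ≤ w e) (R : ℕ)
    (σ τ a W : ℝ) (ha : 0 ≤ a) (hW : 0 ≤ W) (hB : ∀ x ∈ Box R, ∀ y ∈ Box R, w s(x, y) ≤ W)
    (h : AA μ w R σ τ) : AA μ w R (σ - a) (τ / 2 + W) ∨ BB μ w R a := by
  classical
  obtain ⟨x, y, n, p, ⟨p0, pn, pe, pi, pb⟩, hT, hd⟩ := h
  have hpos : ∀ m (q : ℕ → ℤ × ℤ), 0 ≤ Tm w m q := fun m q =>
    Finset.sum_nonneg fun i _ => hw _
  have hT0 := hpos n p
  set T := Tm w n p with hTdef
  set k := Nat.findGreatest (fun k => Tm w k p ≤ T / 2) n with hk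
  have hk1 : Tm w k p ≤ T / 2 := by
    have h0 : Tm w 0 p ≤ T / 2 := by
      simp only [Tm, Finset.range_zero, Finset.sum_empty]
      linarith
    exact Nat.findGreatest_spec (P := fun k => Tm w k p ≤ T / 2) (Nat.zero_le n) h0
  have hkn : k ≤ n := Nat.findGreatest_le n
  rcases hkn.eq_or_lt with h | h
  · left
    rw [h] at hk1
    have hT1 : T ≤ T / 2 := hk1
    refine ⟨x, y, n, p, ⟨p0, pn, pe, pi, pb⟩, ?_, ?_⟩
    · show T ≤ _
      linarith
    · show T ≤ _
      linarith
  · obtain ⟨m, hm⟩ := Nat.exists_eq_add_of_lt h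
    have hm' : n = k + (m + 1) := by omega
    have hS : T = Tm w k p + Tm w (m + 1) (fun i => p (k + i)) := by
      rw [hTdef, hm', tm_add]
    have hk2 : T / 2 < Tm w (k + 1) p := by
      by_contra hc
      push Not at hc
      have h1 := Nat.le_findGreatest (P := fun k => Tm w k p ≤ T / 2) (show k + 1 ≤ n by omega) hc
      omega
    have hk3 : Tm w (k + 1) p = Tm w k p + w s(p k, p (k + 1)) := by
      unfold Tm
      rw [Finset.sum_range_succ]
    have hwk : w s(p k, p (k + 1)) ≤ W := hB _ (pb k hkn) _ (pb (k + 1) (by omega))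
    have P1 : Pth R x (p k) k p :=
      ⟨p0, rfl, fun i hi => pe i (by omega), fun i hi j hj => pi i (by omega) j (by omega),
        fun i hi => pb i (by omega)⟩
    have P2 : Pth R (p k) y (m + 1) (fun i => p (k + i)) := by
      refine ⟨rfl, ?_, fun i hi => pe (k + i) (by omega), fun i hi j hj hij => ?_,
        fun i hi => pb (k + i) (by omega)⟩
      · show p (k + (m + 1)) = y
        rw [← hm', pn]
      · have := pi (k + i) (by omega) (k + j) (by omega) hij
        omega
    have htri : μ (em (y - x)) ≤ μ (em (p k - x)) + μ (em (y - p k)) := by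
      rw [em_sub x y (p k)]
      exact map_add_le_add μ _ _
    have hT2 : Tm w (m + 1) (fun i => p (k + i)) ≤ τ / 2 + W := by linarith
    by_cases h1 : σ - a ≤ μ (em (p k - x)) - Tm w k p
    · left
      exact ⟨x, p k, k, p, P1, by linarith, by linarith⟩
    · by_cases h2 : σ - a ≤ μ (em (y - p k)) - Tm w (m + 1) (fun i => p (k + i))
      · left
        exact ⟨p k, y, m + 1, _, P2, hT2, by linarith⟩
      · right
        push Not at h1 h2
        refine ⟨x, ?_, p k, pb k hkn, y, ?_, k, p, m + 1, _, P1, P2, ?_, by linarith, by linarith⟩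
        · rw [← p0]
          exact pb 0 (by omega)
        · rw [← pn]
          exact pb n le_rfl
        · intro i hi j hj he
          rw [Sym2.eq_iff] at he
          rcases he with ⟨h3, -⟩ | ⟨h3, -⟩
          · have := pi i (by omega) (k + j) (by omega) h3
            omega
          · have := pi i (by omega) (k + (j + 1)) (by omega) h3
            omega

theorem t_CUT : S_CUT := by
  intro μ w hw R σ τ a W ha hW hB h L
  induction L with
  | zero =>
    left
    obtain ⟨x, y, n, p, hp, hT, hd⟩ := h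
    refine ⟨x, y, n, p, hp, ?_, ?_⟩
    · rw [pow_zero, div_one]
      linarith
    · rw [Nat.cast_zero, zero_mul, sub_zero]
      exact hd
  | succ L ih =>
    rcases ih with ih | ih
    · have h1 := step μ w hw R _ _ a W ha hW hB ih
      have e1 : σ - L * a - a = σ - (L + 1 : ℕ) * a := by
        push_cast
        ring
      have e2 : (τ / 2 ^ L + 2 * W) / 2 + W = τ / 2 ^ (L + 1) + 2 * W := by
        rw [pow_succ]
        field_simp
        ring
      rw [e1, e2] at h1
      exact h1
    · exact Or.inr ih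

end Pool.Agent.N189.FN
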